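import Mathlib

namespace Pool.Agent.Results.MP_69f3e4_an.Dichotomy

open Set Filter Topology

/-- The achievement set: all subsums `∑ ε n • v n` with `ε n ∈ {0, 1}`. -/
def achSet {V : Type} [NormedAddCommGroup V] (v : ℕ → V) : Set V :=
  {x | ∃ ε : ℕ → Bool, x = ∑' n, if ε n then v n else 0}

variable {V : Type} [NormedAddCommGroup V] [CompleteSpace V]

lemma nle (v : ℕ → V) (ε : ℕ → Bool) (n : ℕ) : ‖if ε n then v n else 0‖ ≤ ‖v n‖ := by
  split_ifs <;> simp

lemma summ {v : ℕ → V} (hv : Summable fun n => ‖v n‖) (ε : ℕ → Bool) :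
    Summable fun n => if ε n then v n else 0 :=
  Summable.of_norm_bounded hv (nle v ε)

lemma cpt {v : ℕ → V} (hv : Summable fun n => ‖v n‖) : IsCompact (achSet v) := by
  have hc : Continuous fun ε : ℕ → Bool => ∑' n, if ε n then v n else 0 := by
    refine continuous_tsum (fun n => ?_) hv (fun n ε => nle v ε n)
    exact (continuous_of_discreteTopology (f := fun b : Bool => if b then v n else 0)).comp
      (continuous_apply n)
  have : achSet v = range fun ε : ℕ → Bool => ∑' n, if ε n then v n else 0 := by
    ext x; exact ⟨fun ⟨ε, h⟩ => ⟨ε, h.symm⟩, fun ⟨ε, h⟩ => ⟨ε, h.symm⟩⟩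
  rw [this]; exact isCompact_range hc

lemma step {v : ℕ → V} (hv : Summable fun n => ‖v n‖) :
    achSet v = achSet (fun n => v (n + 1)) ∪ (fun x => v 0 + x) '' achSet (fun n => v (n + 1)) := by
  ext x
  constructor
  · rintro ⟨ε, rfl⟩
    rw [(summ hv ε).tsum_eq_zero_add]
    by_cases h : ε 0
    · right; exact ⟨_, ⟨fun n => ε (n + 1), rfl⟩, by simp [h]⟩
    · left; exact ⟨fun n => ε (n + 1), by simp [h]⟩
  · rintro (⟨ε, rfl⟩ | ⟨_, ⟨ε, rfl⟩, rfl⟩)
    · refine ⟨fun n => Nat.casesOn n false ε, ?_⟩
      rw [(summ hv _).tsum_eq_zero_add]; simp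
    · refine ⟨fun n => Nat.casesOn n true ε, ?_⟩
      rw [(summ hv _).tsum_eq_zero_add]; simp

lemma tail_int {v : ℕ → V} (hv : Summable fun n => ‖v n‖) (h : (interior (achSet v)).Nonempty)
    (N : ℕ) : (interior (achSet fun n => v (n + N))).Nonempty := by
  induction N with
  | zero => simpa using h
  | succ N ih =>
    have hN : Summable fun n => ‖v (n + N)‖ := (summable_nat_add_iff N).2 hv
    have hN1 : Summable fun n => ‖v (n + 1 + N)‖ := (summable_nat_add_iff 1).2 hN
    have e : (fun n => v (n + (N + 1))) = fun n => v (n + 1 + N) := by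
      funext n; congr 1; omega
    rw [e]
    by_contra hn
    rw [not_nonempty_iff_eq_empty] at hn
    rw [step hN, interior_union_isClosed_of_interior_empty (cpt hN1).isClosed, hn] at ih
    · exact ih.ne_empty rfl
    · have := (Homeomorph.addLeft (v (0 + N))).image_interior (achSet fun n => v (n + 1 + N))
      rw [hn, image_empty] at this
      exact this.symm

theorem result {V : Type} [NormedAddCommGroup V] [CompleteSpace V] (v : ℕ → V)
    (hv : Summable fun n => ‖v n‖) :
    achSet v = closure (interior (achSet v)) ∨ IsNowhereDense (achSet v) := by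
  have hcl := (cpt hv).isClosed
  by_cases h : (interior (achSet v)).Nonempty
  · left
    refine Subset.antisymm ?_ (closure_minimal interior_subset hcl)
    rintro _ ⟨ε, rfl⟩
    rw [Metric.mem_closure_iff]
    intro r hr
    have ht := tendsto_sum_nat_add fun n => ‖v n‖
    obtain ⟨N, hN⟩ := (ht.eventually (gt_mem_nhds (half_pos hr))).exists
    have hNs : Summable fun n => ‖v (n + N)‖ := (summable_nat_add_iff N).2 hv
    obtain ⟨y, hy⟩ := tail_int hv h N
    set f : V := ∑ n ∈ Finset.range N, if ε n then v n else 0 with hf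
    have bd : ∀ z ∈ achSet fun n => v (n + N), ‖z‖ < r / 2 := by
      rintro _ ⟨δ, rfl⟩
      exact lt_of_le_of_lt (tsum_of_norm_bounded hNs.hasSum (nle _ δ)) hN
    have sub : (fun x => f + x) '' (achSet fun n => v (n + N)) ⊆ achSet v := by
      rintro _ ⟨_, ⟨δ, rfl⟩, rfl⟩
      refine ⟨fun n => if n < N then ε n else δ (n - N), ?_⟩
      rw [← (summ hv _).sum_add_tsum_nat_add N, hf]
      beta_reduce
      congr 1
      · exact Finset.sum_congr rfl fun n hn => by simp [Finset.mem_range.1 hn]
      · simp
    refine ⟨f + y, ?_, ?_⟩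
    · have := (Homeomorph.addLeft f).image_interior (achSet fun n => v (n + N))
      have h1 : f + y ∈ interior ((Homeomorph.addLeft f) '' (achSet fun n => v (n + N))) := by
        rw [← this]; exact ⟨y, hy, rfl⟩
      exact interior_mono sub h1
    · rw [← (summ hv ε).sum_add_tsum_nat_add N, ← hf, dist_add_left]
      have a := bd _ ⟨fun n => ε (n + N), rfl⟩
      have b := bd y (interior_subset hy)
      have := dist_le_norm_add_norm (∑' n, if ε (n + N) then v (n + N) else 0) y
      linarith
  · right
    rw [hcl.isNowhereDense_iff]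
    exact not_nonempty_iff_eq_empty.1 h

end Pool.Agent.Results.MP_69f3e4_an.Dichotomy
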